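import Pool.Agent.helper18.HG.Spec

/-! # Row hg:WIN -/

set_option autoImplicit false

namespace Pool.Agent.helper18.HG

open Finset

theorem WIN (hRKB : RKB_stmt) : WIN_stmt := by
  intro k A a b hk hA
  obtain ⟨_, h2, _⟩ := hRKB k hk
  have hsub : (A.filter (fun x => a ≤ x ∧ x < a + b)).image (fun x => x - a) ⊆ range b := by
    intro y hy
    rw [mem_image] at hy
    obtain ⟨x, hx, rfl⟩ := hy
    rw [mem_filter] at hx
    rw [mem_range]
    omega
  have hfree : APFree k ((A.filter (fun x => a ≤ x ∧ x < a + b)).image (fun x => x - a)) := by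
    intro a0 q hq
    obtain ⟨j, hj, hn⟩ := hA (a + a0) q hq
    refine ⟨j, hj, ?_⟩
    intro hy
    rw [mem_image] at hy
    obtain ⟨x, hx, hxe⟩ := hy
    rw [mem_filter] at hx
    apply hn
    have : x = a + a0 + j * q := by
      have h1 := hx.2.1
      generalize j * q = t at hxe ⊢
      omega
    rw [← this]
    exact hx.1
  have hcard := h2 b _ hsub hfree
  rw [card_image_of_injOn] at hcard
  · exact hcard
  · intro x hx y hy hxy
    simp only [coe_filter, Set.mem_ofPred_eq] at hx hy
    simp only at hxy
    omega

end Pool.Agent.helper18.HG
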