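import Pool.Agent.helper19.FixedPolytopeReal

/-!
MP_c81765_co, volume form of the theorem for one affine lattice map of finite order
(the proof follows Pool.Agent.S11381.main_thm of helper19).
-/

set_option autoImplicit false
set_option maxHeartbeats 4000000
open scoped Pointwise

namespace Pool.Agent.HG

open Pool.Agent.H19 Polynomial

lemma charpoly_hatM' {n : ℕ} (A : Matrix (Fin n) (Fin n) ℤ) (τ : Fin n → ℤ) :
    (hatM A τ).charpoly = A.charpoly * (X - C 1) := by
  rw [hatM, Matrix.charpoly_fromBlocks_zero₂₁, Matrix.charpoly_one]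
  simp

theorem core_vol {n : ℕ} (A : Matrix (Fin n) (Fin n) ℤ) (τ : Fin n → ℤ) (m : ℕ) (hm : 0 < m)
    (hM : (hatM A τ) ^ m = 1) (S : Finset (Fin n → ℤ)) (P : Set (Fin n → ℝ))
    (hP : P = convexHull ℝ ((fun (z : Fin n → ℤ) (i : Fin n) => (z i : ℝ)) ''
      (S : Set (Fin n → ℤ))))
    (haff : affineSpan ℝ P = ⊤) (hinv : TR A τ '' P = P)
    (Pg : Set (Fin n → ℝ)) (hPg : Pg = {x | x ∈ P ∧ TR A τ x = x})
    (ind : ℕ) (hind : ind = sInf {k : ℕ | 0 < k ∧ ∃ z : Fin n → ℤ,
        (fun i => (z i : ℝ)) ∈ affineSpan ℝ ((k : ℝ) • Pg)})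
    {κ : Type} [Fintype κ] [DecidableEq κ] (b : Module.Basis κ ℤ (fixZ A)) :
    0 < ind ∧ Module.finrank ℝ (affineSpan ℝ Pg).direction = Fintype.card κ ∧
    ∃ q : ℤ[X], A.charpoly = (X - C 1) ^ (Fintype.card κ) * q ∧ 0 < q.eval 1 ∧
      ∀ x₀ : Fin n → ℝ, TR A τ x₀ = x₀ → ∃ N : ℕ, 0 < N ∧
        ((Fintype.card κ).factorial : ℝ) * MeasureTheory.volume.real
          {c : κ → ℝ | x₀ + ∑ i, c i • castV (b i : Fin n → ℤ) ∈ Pg} * (q.eval 1 : ℤ) /
          (ind : ℝ) = N := by
  classical
  have hconv : Convex ℝ P := by rw [hP]; exact convex_convexHull ℝ _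
  have hinv' : ∀ x ∈ P, TR A τ x ∈ P := by
    intro x hx
    have : TR A τ x ∈ TR A τ '' P := ⟨x, hx, rfl⟩
    rwa [hinv] at this
  have hspan : affineSpan ℝ Pg = fixA A τ := by
    rw [hPg]
    exact affineSpan_fixed A τ m hm hM P hconv haff hinv'
  have hmemiff := mem_affineSpan_smul_iff A τ Pg hspan
  -- P is nonempty
  have hSne : S.Nonempty := by
    rw [Finset.nonempty_iff_ne_empty]
    rintro rfl
    rw [hP] at haff
    simp only [Finset.coe_empty, Set.image_empty, convexHull_empty, AffineSubspace.span_empty]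
      at haff
    exact AffineSubspace.bot_ne_top ℝ (Fin n → ℝ) (Fin n → ℝ) haff
  obtain ⟨v₀, hv₀⟩ := hSne
  -- the index
  have hset : {k : ℕ | 0 < k ∧ ∃ z : Fin n → ℤ,
        (fun i => (z i : ℝ)) ∈ affineSpan ℝ ((k : ℝ) • Pg)}
      = {k : ℕ | 0 < k ∧ ∃ z : Fin n → ℤ, homZ z k ∈ fixZ (hatM A τ)} := by
    ext k
    constructor
    · rintro ⟨hk, z, hz⟩
      exact ⟨hk, z, (hmemiff k hk z).mp hz⟩
    · rintro ⟨hk, z, hz⟩
      exact ⟨hk, z, (hmemiff k hk z).mpr hz⟩
  have hne : {k : ℕ | 0 < k ∧ ∃ z : Fin n → ℤ, homZ z k ∈ fixZ (hatM A τ)}.Nonempty := by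
    refine ⟨m, hm, ?_⟩
    set w : Fin n ⊕ Unit → ℤ := ∑ j ∈ Finset.range m, ((hatM A τ) ^ j).mulVec (homZ v₀ 1) with hw
    have hw1 : w ∈ fixZ (hatM A τ) := by
      rw [mem_fixZ, hw, Matrix.mulVec_sum]
      have h1 : ∀ j, (hatM A τ).mulVec (((hatM A τ) ^ j).mulVec (homZ v₀ 1)) =
          ((hatM A τ) ^ (j + 1)).mulVec (homZ v₀ 1) := by
        intro j
        rw [Matrix.mulVec_mulVec, pow_succ']
      simp_rw [h1]
      have h2 := Finset.sum_range_succ' (fun j => ((hatM A τ) ^ j).mulVec (homZ v₀ 1)) m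
      have h3 := Finset.sum_range_succ (fun j => ((hatM A τ) ^ j).mulVec (homZ v₀ 1)) m
      rw [h3] at h2
      rw [hM, pow_zero] at h2
      exact (add_right_cancel h2).symm
    have hlast : ∀ j : ℕ, (((hatM A τ) ^ j).mulVec (homZ v₀ 1)) (Sum.inr ()) = 1 := by
      intro j
      induction j with
      | zero => simp
      | succ j ih =>
        rw [pow_succ', ← Matrix.mulVec_mulVec]
        rw [homZ_eta (((hatM A τ) ^ j).mulVec (homZ v₀ 1)), hatM_mulVec, homZ_inr, ih]
    have hw2 : w (Sum.inr ()) = m := by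
      rw [hw, Finset.sum_apply]
      simp_rw [hlast]
      simp
    rw [homZ_eta w, hw2] at hw1
    exact ⟨_, hw1⟩
  rw [hset] at hind
  have hmem := Nat.sInf_mem hne
  rw [← hind] at hmem
  obtain ⟨hind0, z₀, hz₀⟩ := hmem
  have hmin : ∀ (k : ℕ), 0 < k → ∀ z, homZ z k ∈ fixZ (hatM A τ) → ind ≤ k := by
    intro k hk z hz
    rw [hind]
    exact Nat.sInf_le ⟨hk, z, hz⟩
  -- bases
  obtain ⟨e, he1, he2⟩ := exists_basis A τ z₀ ind hind0 hz₀ hmin b
  obtain ⟨D', q, p, hD'pos, hqD', hchar, hpe, havg, hint⟩ :=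
    exists_adapted_real (hatM A τ) m hm hM e
  -- the determinant
  have hchar' : A.charpoly = (X - C 1) ^ (Fintype.card κ) * q := by
    rw [charpoly_hatM', Fintype.card_sum, Fintype.card_unit, pow_succ] at hchar
    have h1 : A.charpoly * (X - C 1) = ((X - C 1) ^ (Fintype.card κ) * q) * (X - C 1) := by
      rw [hchar]; ring
    exact mul_right_cancel₀ (X_sub_C_ne_zero 1) h1
  -- real coordinates
  set t : ℝ := (ind : ℝ) with ht
  have ht0 : t ≠ 0 := by rw [ht]; exact_mod_cast hind0.ne'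
  have htpos : 0 < t := by rw [ht]; exact_mod_cast hind0
  let Φ : (κ → ℝ) →ₗ[ℝ] (Fin n → ℝ) :=
    ∑ i, (LinearMap.proj i : (κ → ℝ) →ₗ[ℝ] ℝ).smulRight (castV (b i : Fin n → ℤ))
  have hΦ : ∀ c, Φ c = ∑ i, c i • castV (b i : Fin n → ℤ) := by
    intro c; simp [Φ]
  let psi : (κ → ℝ) →ᵃ[ℝ] (Fin n → ℝ) :=
    (t⁻¹ • Φ).toAffineMap + AffineMap.const ℝ (κ → ℝ) (t⁻¹ • castV z₀)
  have hpsi_apply : ∀ c, psi c = t⁻¹ • (Φ c + castV z₀) := by
    intro c
    simp [psi]
  have hpsi_lin : psi.linear = t⁻¹ • Φ := by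
    simp [psi]
  let qv : (Fin n → ℝ) → (κ → ℝ) := fun x i => t * p (hom x) (Sum.inl i)
  have hcomp : ∀ x : Fin n → ℝ, ∀ k, ∑ i, p (hom x) (Sum.inl i) * (e (Sum.inl i) : Fin n ⊕ Unit → ℤ) k
      + p (hom x) (Sum.inr ()) * (e (Sum.inr ()) : Fin n ⊕ Unit → ℤ) k = hom (beta A τ m x) k := by
    intro x k
    have h1 := havg (hom x)
    rw [← hom_beta A τ m hm, Fintype.sum_sum_type] at h1
    have h2 := congrFun h1 k
    simp only [Pi.add_apply, Finset.sum_apply, Pi.smul_apply, smul_eq_mul, castV,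
      Finset.univ_unique, Finset.sum_singleton] at h2
    exact h2
  have hinr : ∀ x : Fin n → ℝ, p (hom x) (Sum.inr ()) * t = 1 := by
    intro x
    have h1 := hcomp x (Sum.inr ())
    rw [he2] at h1
    simp only [he1, homZ_inr, Int.cast_zero, mul_zero, Finset.sum_const_zero, zero_add,
      Int.cast_natCast, hom_inr] at h1
    exact h1
  have hpsi_qv : ∀ x : Fin n → ℝ, psi (qv x) = beta A τ m x := by
    intro x
    funext k
    have h1 := hcomp x (Sum.inl k)
    rw [he2] at h1
    simp only [he1, homZ_inl, hom_inl] at h1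
    have h2 : p (hom x) (Sum.inr ()) = t⁻¹ := by
      exact eq_inv_of_mul_eq_one_left (hinr x)
    rw [h2] at h1
    rw [← h1, hpsi_apply, hΦ]
    simp only [Pi.smul_apply, Pi.add_apply, Finset.sum_apply, smul_eq_mul, castV, qv, mul_add,
      Finset.mul_sum]
    congr 1
    refine Finset.sum_congr rfl fun i _ => ?_
    field_simp
  have hhomq : ∀ x : Fin n → ℝ, hom (qv x) = t • p (hom x) := by
    intro x
    funext j
    rcases j with j | j
    · simp [qv]
    · have := hinr x
      simp only [hom_inr, Pi.smul_apply, smul_eq_mul]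
      rw [mul_comm]
      exact this.symm
  have hΦinj : Function.Injective Φ := by
    rw [← LinearMap.ker_eq_bot, LinearMap.ker_eq_bot']
    intro c hc
    have h1 : ∑ i, c i • castV (e (Sum.inl i) : Fin n ⊕ Unit → ℤ) = 0 := by
      funext k
      rw [hΦ] at hc
      rcases k with k | k
      · have := congrFun hc k
        simp only [Finset.sum_apply, Pi.smul_apply, smul_eq_mul, castV, Pi.zero_apply] at this
        simp only [Finset.sum_apply, Pi.smul_apply, smul_eq_mul, castV, Pi.zero_apply, he1,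
          homZ_inl]
        exact this
      · simp [castV, he1]
    have h2 := congrArg p h1
    rw [map_sum, map_zero] at h2
    simp only [map_smul, hpe] at h2
    funext i
    have := congrFun h2 (Sum.inl i)
    simp only [Finset.sum_apply, Pi.smul_apply, smul_eq_mul, Pi.zero_apply] at this
    rw [Finset.sum_eq_single i] at this
    · simpa using this
    · intro i' _ hi'
      rw [Pi.single_eq_of_ne]
      · simp
      · intro h; exact hi' (Sum.inl_injective h).symm
    · intro h; exact absurd (Finset.mem_univ i) h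
  have hpsi_inj : Function.Injective psi := by
    intro c c' h
    rw [hpsi_apply, hpsi_apply] at h
    have h1 := smul_right_injective (Fin n → ℝ) (inv_ne_zero ht0) h
    exact hΦinj (add_right_cancel h1)
  -- psi parametrises the fixed space
  have hpsi_fix : ∀ x, TR A τ x = x → psi (qv x) = x := fun x hx => by
    rw [hpsi_qv, beta_of_fixed A τ m hm x hx]
  have hpsi_mem : ∀ c, TR A τ (psi c) = psi c := by
    intro c
    rw [fix_iff]
    have h1 : hom (psi c) = t⁻¹ • (∑ i, c i • castV (e (Sum.inl i) : Fin n ⊕ Unit → ℤ) +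
        castV (e (Sum.inr ()) : Fin n ⊕ Unit → ℤ)) := by
      funext k
      rcases k with k | k
      · rw [hom_inl, hpsi_apply, hΦ]
        simp [castV, he1, he2, Finset.sum_apply]
      · simp [castV, he1, he2, Finset.sum_apply, ← ht, ht0]
    rw [h1, Matrix.mulVec_smul, Matrix.mulVec_add, Matrix.mulVec_sum]
    congr 2
    · refine Finset.sum_congr rfl fun i _ => ?_
      rw [Matrix.mulVec_smul, rM_mulVec, mem_fixZ.mp (e (Sum.inl i)).2]
    · rw [rM_mulVec, mem_fixZ.mp (e (Sum.inr ())).2]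
  -- the dimension
  have hdim : Module.finrank ℝ (affineSpan ℝ Pg).direction = Fintype.card κ := by
    rw [hspan]
    have h1 : fixA A τ = (⊤ : AffineSubspace ℝ (κ → ℝ)).map psi := by
      ext x
      rw [mem_fixA, AffineSubspace.mem_map]
      constructor
      · intro hx
        exact ⟨qv x, trivial, hpsi_fix x hx⟩
      · rintro ⟨c, -, rfl⟩
        exact hpsi_mem c
    rw [h1, AffineSubspace.map_direction, AffineSubspace.direction_top, Submodule.map_top,
      hpsi_lin, LinearMap.finrank_range_of_inj]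
    · simp
    · intro c c' h
      rw [LinearMap.smul_apply, LinearMap.smul_apply] at h
      exact hΦinj (smul_right_injective (Fin n → ℝ) (inv_ne_zero ht0) h)
  -- the polytope in coordinates
  have hPrange : P = convexHull ℝ (Set.range fun v : S => castV v.1) := by
    rw [hP]
    congr 1
    ext x
    constructor
    · rintro ⟨z, hz, rfl⟩
      exact ⟨⟨z, hz⟩, rfl⟩
    · rintro ⟨⟨z, hz⟩, rfl⟩
      exact ⟨z, hz, rfl⟩
  set pts : S → (κ → ℝ) := fun v => qv (castV v.1) with hpts
  have hqcomb : ∀ (w : S → ℝ) (x : Fin n → ℝ), ∑ v, w v • hom (castV v.1) = hom x →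
      ∑ v, w v • hom (pts v) = hom (qv x) := by
    intro w x hx
    simp only [hpts, hhomq]
    rw [← hx, map_sum, Finset.smul_sum]
    refine Finset.sum_congr rfl fun v _ => ?_
    rw [map_smul, smul_comm]
  set Kp : Set (κ → ℝ) := convexHull ℝ (Set.range pts) with hKp
  have hKmem : ∀ c, c ∈ Kp ↔ psi c ∈ Pg := by
    intro c
    constructor
    · intro hc
      rw [hKp, mem_hull_iff] at hc
      obtain ⟨w, hw0, hw1⟩ := hc
      -- the point x
      set x : Fin n → ℝ := ∑ v : S, w v • castV v.1 with hx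
      have hwsum := ((sum_hom_iff pts w c).mp hw1).2
      have hhx : ∑ v : S, w v • hom (castV v.1) = hom x :=
        (sum_hom_iff (fun v : S => castV v.1) w x).mpr ⟨rfl, hwsum⟩
      have h1 := hqcomb w x hhx
      rw [hw1] at h1
      have h2 : c = qv x := by
        funext i
        exact congrFun h1 (Sum.inl i)
      have hxP : x ∈ P := by
        rw [hPrange, mem_hull_iff]
        exact ⟨w, hw0, hhx⟩
      rw [h2, hpsi_qv, hPg]
      exact ⟨beta_mem A τ m hm P hconv hinv' x hxP, beta_fixed A τ m hm hM x⟩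
    · intro hc
      rw [hPg] at hc
      obtain ⟨hcP, hcT⟩ := hc
      have h1 : qv (psi c) = c := hpsi_inj (hpsi_fix _ hcT)
      rw [hPrange, mem_hull_iff] at hcP
      obtain ⟨w, hw0, hw1⟩ := hcP
      rw [hKp, mem_hull_iff]
      refine ⟨w, hw0, ?_⟩
      rw [hqcomb w (psi c) hw1, h1]
  -- the volume
  have hKbdd : Bornology.IsBounded Kp :=
    ((Set.finite_range pts).isCompact_convexHull ℝ).isBounded
  have hKconv : Convex ℝ Kp := convex_convexHull ℝ _
  have himage : psi '' Kp = Pg := by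
    ext x
    constructor
    · rintro ⟨c, hc, rfl⟩
      exact (hKmem c).mp hc
    · intro hx
      have hx2 : TR A τ x = x := by
        rw [hPg] at hx
        exact hx.2
      refine ⟨qv x, ?_, hpsi_fix x hx2⟩
      rw [hKmem, hpsi_fix x hx2]
      exact hx
  have hmapinj : ∀ s : AffineSubspace ℝ (κ → ℝ), s.map psi = (⊤ : AffineSubspace ℝ (κ → ℝ)).map psi →
      s = ⊤ := by
    intro s hs
    rw [eq_top_iff]
    intro c _
    have h1 : psi c ∈ (⊤ : AffineSubspace ℝ (κ → ℝ)).map psi := by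
      rw [AffineSubspace.mem_map]
      exact ⟨c, trivial, rfl⟩
    rw [← hs, AffineSubspace.mem_map] at h1
    obtain ⟨c', hc', hcc⟩ := h1
    rw [← hpsi_inj hcc]
    exact hc'
  have hKaff : affineSpan ℝ Kp = ⊤ := by
    apply hmapinj
    rw [AffineSubspace.map_span, himage, hspan]
    ext x
    rw [mem_fixA, AffineSubspace.mem_map]
    constructor
    · intro hx
      exact ⟨qv x, trivial, hpsi_fix x hx⟩
    · rintro ⟨c, -, rfl⟩
      exact hpsi_mem c
  have hKint : (interior Kp).Nonempty := hKconv.interior_nonempty_iff_affineSpan_eq_top.mpr hKaff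
  have hKpos : 0 < MeasureTheory.volume.real Kp := by
    rw [MeasureTheory.measureReal_def]
    refine ENNReal.toReal_pos ?_ hKbdd.measure_lt_top.ne
    exact (lt_of_lt_of_le (isOpen_interior.measure_pos _ hKint)
      (MeasureTheory.measure_mono interior_subset)).ne'
  obtain ⟨T, hT⟩ := exists_hull_volume pts
  -- integrality
  choose zf hzf using fun σ : κ ⊕ Unit → S => hint (fun j => homZ (σ j).1 1)
  have hfinal : (((Fintype.card κ).factorial : ℝ) * D' / (t ^ (Fintype.card κ) * t)) *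
      MeasureTheory.volume.real Kp = ((∑ σ ∈ T, (zf σ).natAbs : ℕ) : ℝ) := by
    have h1 : ((Fintype.card κ).factorial : ℝ) * MeasureTheory.volume.real Kp =
        t ^ (Fintype.card κ + 1) * ∑ σ ∈ T, |(Matrix.of fun (j a : κ ⊕ Unit) =>
          p (castV (homZ (σ j).1 1)) a).det| := by
      rw [hT, Finset.mul_sum]
      refine Finset.sum_congr rfl fun σ _ => ?_
      have h2 : (Matrix.of fun (j i : κ ⊕ Unit) => hom (pts (σ j)) i) =
          t • (Matrix.of fun (j a : κ ⊕ Unit) => p (castV (homZ (σ j).1 1)) a) := by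
        ext j i
        simp only [Matrix.of_apply, Matrix.smul_apply, hpts, hhomq, hom_castV, Pi.smul_apply]
      rw [h2, Matrix.det_smul, abs_mul, abs_pow, abs_of_pos htpos, Fintype.card_sum,
        Fintype.card_unit]
    have h3 : (D' : ℝ) * ∑ σ ∈ T, |(Matrix.of fun (j a : κ ⊕ Unit) =>
          p (castV (homZ (σ j).1 1)) a).det| = ((∑ σ ∈ T, (zf σ).natAbs : ℕ) : ℝ) := by
      rw [Finset.mul_sum, Nat.cast_sum]
      refine Finset.sum_congr rfl fun σ _ => ?_
      have h4 : (0 : ℝ) < D' := by exact_mod_cast hD'pos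
      have h5 := hzf σ
      rw [Nat.cast_natAbs, Int.cast_abs, ← h5, abs_mul, abs_of_pos h4]
    calc (((Fintype.card κ).factorial : ℝ) * D' / (t ^ (Fintype.card κ) * t)) *
          MeasureTheory.volume.real Kp
        = (((Fintype.card κ).factorial : ℝ) * MeasureTheory.volume.real Kp) * D' /
            (t ^ (Fintype.card κ) * t) := by ring
      _ = (D' : ℝ) * ∑ σ ∈ T, |(Matrix.of fun (j a : κ ⊕ Unit) =>
          p (castV (homZ (σ j).1 1)) a).det| := by
          rw [h1]
          generalize (∑ σ ∈ T, |(Matrix.of fun (j a : κ ⊕ Unit) =>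
            p (castV (homZ (σ j).1 1)) a).det|) = X
          rw [pow_succ]
          have h6 : t ^ (Fintype.card κ) * t ≠ 0 := mul_ne_zero (pow_ne_zero _ ht0) ht0
          field_simp
      _ = _ := h3
  have hNpos : 0 < ∑ σ ∈ T, (zf σ).natAbs := by
    have h0 : (0 : ℝ) < ((∑ σ ∈ T, (zf σ).natAbs : ℕ) : ℝ) := by
      rw [← hfinal]
      have h4 : (0 : ℝ) < D' := by exact_mod_cast hD'pos
      have h5 : (0 : ℝ) < ((Fintype.card κ).factorial : ℝ) := by
        exact_mod_cast Nat.factorial_pos _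
      positivity
    exact_mod_cast h0
  refine ⟨hind0, hdim, q, hchar', by rw [hqD']; exact hD'pos, ?_⟩
  intro x₀ hx₀
  refine ⟨∑ σ ∈ T, (zf σ).natAbs, hNpos, ?_⟩
  rw [← hfinal, hqD']
  have hset2 : {c : κ → ℝ | x₀ + ∑ i, c i • castV (b i : Fin n → ℤ) ∈ Pg} =
      (fun c : κ → ℝ => t • c) ⁻¹' ((fun y : κ → ℝ => qv x₀ + y) ⁻¹' Kp) := by
    ext c
    have h1 : psi (qv x₀ + t • c) = x₀ + ∑ i, c i • castV (b i : Fin n → ℤ) := by
      conv_rhs => rw [← hpsi_fix x₀ hx₀]
      rw [hpsi_apply, hpsi_apply, map_add, map_smul, ← hΦ c, smul_add, smul_add, smul_add,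
        smul_smul, inv_mul_cancel₀ ht0, one_smul]
      abel
    rw [Set.mem_setOf_eq, ← h1, ← hKmem]
    rfl
  have hvol : MeasureTheory.volume.real
      {c : κ → ℝ | x₀ + ∑ i, c i • castV (b i : Fin n → ℤ) ∈ Pg} =
      (t ^ (Fintype.card κ))⁻¹ * MeasureTheory.volume.real Kp := by
    rw [hset2, MeasureTheory.measureReal_def, MeasureTheory.measureReal_def,
      MeasureTheory.Measure.addHaar_preimage_smul _ ht0, MeasureTheory.measure_preimage_add,
      ENNReal.toReal_mul, Module.finrank_fintype_fun_eq_card, abs_of_pos (by positivity),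
      ENNReal.toReal_ofReal (by positivity)]
  rw [hvol]
  field_simp

end Pool.Agent.HG
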