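import Mathlib

/-!
MP_c81765_co: definitions for the integrality of the evaluation at one of the equivariant
phi-series, in the setting of the problem (linear action on `ℤ^n`, lattice polytope of any dimension).
-/

set_option autoImplicit false

open scoped Pointwise

namespace Pool.Agent.HG

/-- An integer vector as a real vector. -/
def toR {n : ℕ} (z : Fin n → ℤ) : Fin n → ℝ := fun i => (z i : ℝ)

/-- The real extension to `ℝ^n` of a linear map `f : ℤ^n → ℤ^n`: the matrix of `f` applied to `x`. -/
noncomputable def realExt {n : ℕ} (f : (Fin n → ℤ) →ₗ[ℤ] (Fin n → ℤ)) (x : Fin n → ℝ) :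
    Fin n → ℝ :=
  ∑ j, x j • toR (f (Pi.single j 1))

/-- `P` is a (nonempty) lattice polytope: the convex hull of finitely many points of `ℤ^n`. -/
def IsLatticePolytope {n : ℕ} (P : Set (Fin n → ℝ)) : Prop :=
  ∃ S : Finset (Fin n → ℤ), S.Nonempty ∧ P = convexHull ℝ (toR '' (S : Set (Fin n → ℤ)))

/-- `P` is invariant under the linear action `ρ` of `G` on `ℤ^n`, extended to `ℝ^n`. -/
def IsInvariant {n : ℕ} {G : Type*} [Group G] (ρ : Representation ℤ G (Fin n → ℤ))
    (P : Set (Fin n → ℝ)) : Prop :=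
  ∀ g : G, realExt (ρ g) '' P = P

/-- The points of `P` fixed by the linear map `f`. -/
def fixedPart {n : ℕ} (f : (Fin n → ℤ) →ₗ[ℤ] (Fin n → ℤ)) (P : Set (Fin n → ℝ)) :
    Set (Fin n → ℝ) :=
  {x | x ∈ P ∧ realExt f x = x}

/-- The dimension of `Q`: the dimension of the linear space parallel to the affine span of `Q`. -/
noncomputable def dimension {n : ℕ} (Q : Set (Fin n → ℝ)) : ℕ :=
  Module.finrank ℝ (vectorSpan ℝ Q)

/-- The lattice of the integer vectors parallel to the affine span of `Q`. -/
def parLattice {n : ℕ} (Q : Set (Fin n → ℝ)) : Submodule ℤ (Fin n → ℤ) where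
  carrier := {z | toR z ∈ vectorSpan ℝ Q}
  add_mem' := by
    intro a b ha hb
    have h : toR (a + b) = toR a + toR b := by
      funext i
      simp [toR]
    change toR (a + b) ∈ vectorSpan ℝ Q
    rw [h]
    exact Submodule.add_mem _ ha hb
  zero_mem' := by
    have h : toR (0 : Fin n → ℤ) = 0 := by
      funext i
      simp [toR]
    change toR 0 ∈ vectorSpan ℝ Q
    rw [h]
    exact Submodule.zero_mem _
  smul_mem' := by
    intro c a ha
    have h : toR (c • a) = (c : ℝ) • toR a := by
      funext i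
      simp [toR]
    change toR (c • a) ∈ vectorSpan ℝ Q
    rw [h]
    exact Submodule.smul_mem _ _ ha

/-- The minimal `k > 0` for which the affine span of `k Q` meets `ℤ^n`. -/
noncomputable def index {n : ℕ} (Q : Set (Fin n → ℝ)) : ℕ :=
  sInf {k : ℕ | 0 < k ∧ ∃ z : Fin n → ℤ, toR z ∈ affineSpan ℝ ((k : ℝ) • Q)}

/-- The volume of `Q` in the coordinates of a basis `b` of the lattice of the integer vectors
parallel to the affine span of `Q`, with origin `x₀`. -/
noncomputable def relVol {n d : ℕ} (Q : Set (Fin n → ℝ))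
    (b : Module.Basis (Fin d) ℤ (parLattice Q)) (x₀ : Fin n → ℝ) : ℝ :=
  MeasureTheory.volume.real {c : Fin d → ℝ | x₀ + ∑ i, c i • toR (b i : Fin n → ℤ) ∈ Q}

/-- `f` maps the lattice of the integer vectors parallel to the affine span of `P` to itself. -/
def Preserves {n : ℕ} (f : (Fin n → ℤ) →ₗ[ℤ] (Fin n → ℤ)) (P : Set (Fin n → ℝ)) : Prop :=
  ∀ z ∈ parLattice P, f z ∈ parLattice P

/-- The product of `1 - lam` over the complex eigenvalues `lam ≠ 1` of an endomorphism of a
lattice, with multiplicity. -/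
noncomputable def eigenProduct {M : Type*} [AddCommGroup M] [Module.Free ℤ M] [Module.Finite ℤ M]
    (f : M →ₗ[ℤ] M) : ℂ :=
  open Classical in
  (((f.charpoly.map (Int.castRingHom ℂ)).roots.filter (fun lam => lam ≠ 1)).map
    (fun lam => 1 - lam)).prod

/-- `D(f)`: the product of `1 - lam` over the eigenvalues `lam ≠ 1` of `f` on the lattice of the
integer vectors parallel to the affine span of `P`. -/
noncomputable def detPart {n : ℕ} (f : (Fin n → ℤ) →ₗ[ℤ] (Fin n → ℤ)) (P : Set (Fin n → ℝ))
    (hM : Preserves f P) : ℂ :=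
  eigenProduct (f.restrict hM)

/-- The number `(dim P^g)! vol(P^g) D(g) / ind(P^g)`. -/
noncomputable def phiOne {n d : ℕ} (f : (Fin n → ℤ) →ₗ[ℤ] (Fin n → ℤ)) (P : Set (Fin n → ℝ))
    (hM : Preserves f P) (b : Module.Basis (Fin d) ℤ (parLattice (fixedPart f P)))
    (x₀ : Fin n → ℝ) : ℂ :=
  ((dimension (fixedPart f P)).factorial : ℂ) * (relVol (fixedPart f P) b x₀ : ℂ) *
    detPart f P hM / (index (fixedPart f P) : ℂ)

end Pool.Agent.HG
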