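import Pool.Agent.helper27.HG.Defs
import Pool.Agent.helper27.HG.Core

/-!
MP_c81765_co: lemmas on integer bases, real charts and eigenvalue products.
-/

set_option autoImplicit false
open scoped Pointwise

namespace Pool.Agent.HG

open Pool.Agent.H19 Polynomial

lemma toR_eq {n : ℕ} (z : Fin n → ℤ) : toR z = castV z := rfl

lemma toR_injective {n : ℕ} : Function.Injective (toR : (Fin n → ℤ) → (Fin n → ℝ)) := by
  intro a b h
  funext i
  have := congrFun h i
  simpa [toR] using this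

lemma toR_add {n : ℕ} (a b : Fin n → ℤ) : toR (a + b) = toR a + toR b := by
  funext i; simp [toR]

lemma toR_sub {n : ℕ} (a b : Fin n → ℤ) : toR (a - b) = toR a - toR b := by
  funext i; simp [toR]

lemma toR_smul {n : ℕ} (c : ℤ) (a : Fin n → ℤ) : toR (c • a) = (c : ℝ) • toR a := by
  funext i; simp [toR]

lemma toR_sum {n : ℕ} {ι : Type} (s : Finset ι) (v : ι → Fin n → ℤ) :
    toR (∑ i ∈ s, v i) = ∑ i ∈ s, toR (v i) := by
  funext k; simp [toR, Finset.sum_apply]

lemma mem_parLattice {n : ℕ} {Q : Set (Fin n → ℝ)} {z : Fin n → ℤ} :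
    z ∈ parLattice Q ↔ toR z ∈ vectorSpan ℝ Q := Iff.rfl

/-- the real extension as a linear map -/
noncomputable def realExtL {n : ℕ} (f : (Fin n → ℤ) →ₗ[ℤ] (Fin n → ℤ)) :
    (Fin n → ℝ) →ₗ[ℝ] (Fin n → ℝ) :=
  ∑ j, (LinearMap.proj j : (Fin n → ℝ) →ₗ[ℝ] ℝ).smulRight (toR (f (Pi.single j 1)))

lemma realExtL_apply {n : ℕ} (f : (Fin n → ℤ) →ₗ[ℤ] (Fin n → ℤ)) (x : Fin n → ℝ) :
    realExtL f x = realExt f x := by
  simp [realExtL, realExt]

lemma realExtL_toR {n : ℕ} (f : (Fin n → ℤ) →ₗ[ℤ] (Fin n → ℤ)) (z : Fin n → ℤ) :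
    realExtL f (toR z) = toR (f z) := by
  have h : z = ∑ j, z j • (Pi.single j 1 : Fin n → ℤ) := by
    funext k
    simp [Finset.sum_apply, Pi.single_apply]
  conv_rhs => rw [h, map_sum, toR_sum]
  rw [realExtL_apply, realExt]
  refine Finset.sum_congr rfl fun j _ => ?_
  rw [map_smul, toR_smul]
  rfl

/-- the real chart of an integer basis -/
noncomputable def chartL {n r : ℕ} (B : Fin r → Fin n → ℤ) : (Fin r → ℝ) →ₗ[ℝ] (Fin n → ℝ) :=
  ∑ i, (LinearMap.proj i : (Fin r → ℝ) →ₗ[ℝ] ℝ).smulRight (toR (B i))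

lemma chartL_apply {n r : ℕ} (B : Fin r → Fin n → ℤ) (y : Fin r → ℝ) :
    chartL B y = ∑ i, y i • toR (B i) := by
  simp [chartL]

lemma chartL_castV {n r : ℕ} (B : Fin r → Fin n → ℤ) (y : Fin r → ℤ) :
    chartL B (castV y) = toR (∑ i, y i • B i) := by
  rw [chartL_apply, toR_sum]
  refine Finset.sum_congr rfl fun i _ => ?_
  rw [toR_smul]
  rfl

lemma chartL_injective {n r : ℕ} (B : Fin r → Fin n → ℤ)
    (hB : ∀ y : Fin r → ℤ, ∑ i, y i • B i = 0 → y = 0) : Function.Injective (chartL B) := by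
  rw [← LinearMap.ker_eq_bot, LinearMap.ker_eq_bot']
  intro y hy
  let Bm : Matrix (Fin n) (Fin r) ℤ := Matrix.of fun i j => B j i
  have h1 : ∀ y : Fin r → ℤ, Bm.mulVec y = ∑ i, y i • B i := by
    intro y
    funext k
    simp [Bm, Matrix.mulVec, dotProduct, Finset.sum_apply, mul_comm]
  have h2 : ∀ y : Fin r → ℝ, (Bm.map (Int.cast : ℤ → ℝ)).mulVec y = chartL B y := by
    intro y
    rw [chartL_apply]
    funext k
    simp [Bm, Matrix.mulVec, dotProduct, Finset.sum_apply, mul_comm, toR]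
  have hdet : (Bm.transpose * Bm).det ≠ 0 := by
    intro h0
    obtain ⟨v, hv0, hv⟩ := Matrix.exists_mulVec_eq_zero_iff.mpr h0
    apply hv0
    apply hB
    rw [← h1]
    have h3 : dotProduct (Bm.mulVec v) (Bm.mulVec v) = 0 := by
      rw [Matrix.dotProduct_mulVec, Matrix.vecMul_mulVec, ← Matrix.dotProduct_mulVec, hv]
      simp
    exact dotProduct_self_eq_zero.mp h3
  have hdet2 : ((Bm.transpose * Bm).map (Int.cast : ℤ → ℝ)).det ≠ 0 := by
    have : ((Bm.transpose * Bm).map (Int.cast : ℤ → ℝ)).det = ((Bm.transpose * Bm).det : ℝ) := by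
      have := RingHom.map_det (Int.castRingHom ℝ) (Bm.transpose * Bm)
      simpa using this.symm
    rw [this]
    exact_mod_cast hdet
  by_contra hne
  apply hdet2
  rw [← Matrix.exists_mulVec_eq_zero_iff]
  refine ⟨y, hne, ?_⟩
  have h4 : (Bm.transpose * Bm).map (Int.cast : ℤ → ℝ) =
      (Bm.map (Int.cast : ℤ → ℝ)).transpose * Bm.map (Int.cast : ℤ → ℝ) := by
    ext i j
    simp [Matrix.mul_apply]
  rw [h4, ← Matrix.mulVec_mulVec, h2, hy, Matrix.mulVec_zero]

/-- the eigenvalue product -/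
lemma eigenProduct_eq {M : Type*} [AddCommGroup M] [Module.Free ℤ M] [Module.Finite ℤ M]
    (f : M →ₗ[ℤ] M) (k : ℕ) (q : ℤ[X]) (h : f.charpoly = (X - C 1) ^ k * q)
    (hq : 0 < q.eval 1) : eigenProduct f = ((q.eval 1 : ℤ) : ℂ) := by
  classical
  have hmon : f.charpoly.Monic := f.charpoly_monic
  have hqm : q.Monic := by
    rw [h] at hmon
    exact (Polynomial.Monic.of_mul_monic_left ((monic_X_sub_C 1).pow k) hmon)
  have hqm' : (q.map (Int.castRingHom ℂ)).Monic := hqm.map _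
  have heval : (q.map (Int.castRingHom ℂ)).eval 1 = ((q.eval 1 : ℤ) : ℂ) := by
    have h0 := Polynomial.eval_map_apply (Int.castRingHom ℂ) (1 : ℤ) (p := q)
    rw [map_one] at h0
    exact h0
  have hroots : (f.charpoly.map (Int.castRingHom ℂ)).roots =
      (Multiset.replicate k (1 : ℂ)) + (q.map (Int.castRingHom ℂ)).roots := by
    rw [h, Polynomial.map_mul, Polynomial.map_pow, Polynomial.map_sub, Polynomial.map_X,
      Polynomial.map_C, Polynomial.roots_mul]
    · congr 1
      rw [Polynomial.roots_pow, map_one, Polynomial.roots_X_sub_C, Multiset.nsmul_singleton]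
    · exact (((monic_X_sub_C _).pow k).mul hqm').ne_zero
  unfold eigenProduct
  rw [hroots, Multiset.filter_add]
  have h1 : Multiset.filter (fun lam : ℂ => lam ≠ 1) (Multiset.replicate k (1 : ℂ)) = 0 := by
    rw [Multiset.filter_eq_nil]
    intro a ha
    simp [Multiset.eq_of_mem_replicate ha]
  have h2 : Multiset.filter (fun lam : ℂ => lam ≠ 1) (q.map (Int.castRingHom ℂ)).roots =
      (q.map (Int.castRingHom ℂ)).roots := by
    rw [Multiset.filter_eq_self]
    intro a ha h1a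
    rw [h1a, Polynomial.mem_roots hqm'.ne_zero, Polynomial.IsRoot.def, heval] at ha
    have : q.eval 1 = 0 := by exact_mod_cast ha
    omega
  rw [h1, h2, zero_add, ← heval]
  exact ((IsAlgClosed.splits _).eval_eq_prod_roots_of_monic hqm' 1).symm

end Pool.Agent.HG
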