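import Pool.Agent.helper27.HG.Lin

/-!
MP_c81765_co: from full dimensional polytopes and affine maps to linear actions on `ℤ^n` and
lattice polytopes of any dimension.
-/

set_option autoImplicit false
set_option maxHeartbeats 4000000
open scoped Pointwise

namespace Pool.Agent.HG

open Pool.Agent.H19 Polynomial

theorem transfer {n : ℕ} (f : (Fin n → ℤ) →ₗ[ℤ] (Fin n → ℤ)) (m : ℕ) (hm : 0 < m)
    (hfm : f ^ m = 1) (P : Set (Fin n → ℝ)) (hPol : IsLatticePolytope P)
    (hP : realExt f '' P = P) :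
    (fixedPart f P).Nonempty ∧ 0 < index (fixedPart f P) ∧
    ∃ hM : Preserves f P,
      ∀ (d : ℕ) (b : Module.Basis (Fin d) ℤ (parLattice (fixedPart f P))),
      ∀ x₀ ∈ fixedPart f P,
        dimension (fixedPart f P) = d ∧ ∃ N : ℕ, 0 < N ∧ phiOne f P hM b x₀ = (N : ℂ) := by
  classical
  obtain ⟨S, ⟨v₀, hv₀⟩, hPdef⟩ := hPol
  set F := realExtL f with hF
  have hFfix : ∀ x, realExt f x = F x := fun x => (realExtL_apply f x).symm
  have hP : F '' P = P := by
    conv_rhs => rw [← hP]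
    exact Set.image_congr fun x _ => realExtL_apply f x
  have hv₀P : toR v₀ ∈ P := by
    rw [hPdef]
    exact subset_convexHull ℝ _ ⟨v₀, hv₀, rfl⟩
  have hSP : ∀ v ∈ S, toR v ∈ P := by
    intro v hv
    rw [hPdef]
    exact subset_convexHull ℝ _ ⟨v, hv, rfl⟩
  have hFP : ∀ x ∈ P, F x ∈ P := by
    intro x hx
    have : F x ∈ F '' P := ⟨x, hx, rfl⟩
    rwa [hP] at this
  -- the parallel space
  have hFW : ∀ w ∈ vectorSpan ℝ P, F w ∈ vectorSpan ℝ P := by
    intro w hw
    have h1 := AffineMap.map_vectorSpan F.toAffineMap (s := P)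
    have h2 : F.toAffineMap '' P = P := hP
    rw [h2] at h1
    rw [← h1]
    exact ⟨w, hw, rfl⟩
  have hM : ∀ z ∈ parLattice P, f z ∈ parLattice P := by
    intro z hz
    rw [mem_parLattice, ← realExtL_toR]
    exact hFW _ hz
  -- a basis of M
  set r := Module.finrank ℤ (parLattice P) with hr
  let B : Module.Basis (Fin r) ℤ (parLattice P) := Module.finBasis ℤ (parLattice P)
  let Bv : Fin r → Fin n → ℤ := fun i => (B i : Fin n → ℤ)
  have hBsum : ∀ y : Fin r → ℤ, ((∑ i, y i • B i : parLattice P) : Fin n → ℤ) =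
      ∑ i, y i • Bv i := by
    intro y
    rw [Submodule.coe_sum]
    rfl
  have hBinj : ∀ y : Fin r → ℤ, ∑ i, y i • Bv i = 0 → y = 0 := by
    intro y hy
    have h1 : (∑ i, y i • B i : parLattice P) = 0 := by
      apply Subtype.ext
      rw [hBsum, hy]
      rfl
    funext i
    exact (Fintype.linearIndependent_iff.mp B.linearIndependent) y h1 i
  let L := chartL Bv
  have hL : ∀ y, L y = ∑ i, y i • toR (Bv i) := chartL_apply Bv
  have hLinj : Function.Injective L := chartL_injective Bv hBinj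
  -- integer coordinates
  have hrepr : ∀ z (hz : z ∈ parLattice P), L (castV (fun i => B.repr ⟨z, hz⟩ i)) = toR z := by
    intro z hz
    rw [chartL_castV, ← hBsum, B.sum_repr]
  have hLW : ∀ y, L y ∈ vectorSpan ℝ P := by
    intro y
    rw [hL]
    exact Submodule.sum_mem _ fun i _ => Submodule.smul_mem _ _ (B i).2
  have hWL : ∀ w ∈ vectorSpan ℝ P, ∃ y, L y = w := by
    intro w hw
    have h1 : vectorSpan ℝ P = vectorSpan ℝ (toR '' (S : Set (Fin n → ℤ))) := by
      rw [← direction_affineSpan, ← direction_affineSpan, hPdef, affineSpan_convexHull]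
    rw [h1, vectorSpan_eq_span_vsub_set_right ℝ (Set.mem_image_of_mem toR hv₀)] at hw
    have h2 : Submodule.span ℝ ((fun x => x -ᵥ toR v₀) '' (toR '' (S : Set (Fin n → ℤ)))) ≤
        LinearMap.range L := by
      rw [Submodule.span_le]
      rintro _ ⟨_, ⟨v, hv, rfl⟩, rfl⟩
      have hvP : toR v ∈ P := hSP v hv
      have h3 : v - v₀ ∈ parLattice P := by
        rw [mem_parLattice, toR_sub]
        exact vsub_mem_vectorSpan ℝ hvP hv₀P
      exact ⟨_, (hrepr _ h3).trans (toR_sub _ _)⟩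
    exact h2 hw
  -- the affine map in coordinates
  let A' : Matrix (Fin r) (Fin r) ℤ := LinearMap.toMatrix B B (f.restrict hM)
  have hτ : f v₀ - v₀ ∈ parLattice P := by
    rw [mem_parLattice, toR_sub, ← realExtL_toR]
    exact vsub_mem_vectorSpan ℝ (hFP _ hv₀P) hv₀P
  let τ' : Fin r → ℤ := fun i => B.repr ⟨f v₀ - v₀, hτ⟩ i
  have hFL : ∀ y, F (L y) = L ((A'.map (Int.cast : ℤ → ℝ)).mulVec y) := by
    have h1 : F ∘ₗ L = L ∘ₗ (A'.map (Int.cast : ℤ → ℝ)).mulVecLin := by
      apply (Pi.basisFun ℝ (Fin r)).ext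
      intro j
      have h2 : (Pi.basisFun ℝ (Fin r)) j = castV (Pi.single j 1 : Fin r → ℤ) := by
        funext k
        by_cases h : k = j
        · subst h; simp [castV]
        · simp [castV, h]
      rw [LinearMap.comp_apply, LinearMap.comp_apply, h2]
      have h3 : (A'.map (Int.cast : ℤ → ℝ)).mulVecLin (castV (Pi.single j 1 : Fin r → ℤ)) =
          castV (A'.mulVec (Pi.single j 1)) := rM_mulVec A' _
      rw [h3, chartL_castV, chartL_castV, hF, realExtL_toR]
      congr 1
      have h4 : (∑ i, (Pi.single j 1 : Fin r → ℤ) i • Bv i) = Bv j := by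
        simp [Pi.single_apply]
      rw [h4, ← hBsum]
      have h5 : (A'.mulVec (Pi.single j 1)) = fun i => B.repr (f.restrict hM (B j)) i := by
        funext i
        simp [A', LinearMap.toMatrix_apply]
      rw [h5, B.sum_repr]
      rfl
    intro y
    exact LinearMap.congr_fun h1 y
  let χ : (Fin r → ℝ) →ᵃ[ℝ] (Fin n → ℝ) :=
    L.toAffineMap + AffineMap.const ℝ (Fin r → ℝ) (toR v₀)
  have hχ : ∀ y, χ y = L y + toR v₀ := by
    intro y
    simp [χ]
  have hχlin : χ.linear = L := by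
    simp [χ]
  have hχinj : Function.Injective χ := by
    intro y y' h
    rw [hχ, hχ] at h
    exact hLinj (add_right_cancel h)
  have hFχ : ∀ y, F (χ y) = χ (TR A' τ' y) := by
    intro y
    rw [hχ, hχ, map_add, hFL, TR, map_add]
    have h1 : L (fun i => (τ' i : ℝ)) = toR (f v₀ - v₀) := hrepr _ hτ
    rw [h1, toR_sub, hF, realExtL_toR]
    abel
  -- the polytope in coordinates
  have hSmem : ∀ v : S, (v : Fin n → ℤ) - v₀ ∈ parLattice P := by
    intro v
    rw [mem_parLattice, toR_sub]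
    exact vsub_mem_vectorSpan ℝ (hSP v.1 v.2) hv₀P
  let S' : Finset (Fin r → ℤ) := Finset.univ.image
    (fun v : S => (fun i => B.repr ⟨(v : Fin n → ℤ) - v₀, hSmem v⟩ i : Fin r → ℤ))
  let P' : Set (Fin r → ℝ) := convexHull ℝ ((fun (z : Fin r → ℤ) (i : Fin r) => (z i : ℝ)) ''
      (S' : Set (Fin r → ℤ)))
  have hχP : χ '' P' = P := by
    have h1 : χ '' ((fun (z : Fin r → ℤ) (i : Fin r) => (z i : ℝ)) '' (S' : Set (Fin r → ℤ))) =
        toR '' (S : Set (Fin n → ℤ)) := by
      ext x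
      constructor
      · rintro ⟨_, ⟨z, hz, rfl⟩, rfl⟩
        obtain ⟨v, -, rfl⟩ := Finset.mem_image.mp hz
        refine ⟨v, v.2, ?_⟩
        have h2 := hrepr _ (hSmem v)
        rw [hχ]
        change toR v.1 = L (castV (fun i => B.repr ⟨(v : Fin n → ℤ) - v₀, hSmem v⟩ i)) + toR v₀
        rw [h2, toR_sub]
        abel
      · rintro ⟨v, hv, rfl⟩
        refine ⟨_, ⟨_, Finset.mem_coe.mpr (Finset.mem_image.mpr ⟨⟨v, hv⟩, Finset.mem_univ _, rfl⟩),
          rfl⟩, ?_⟩
        have h2 := hrepr _ (hSmem ⟨v, hv⟩)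
        rw [hχ]
        change L (castV (fun i => B.repr ⟨v - v₀, hSmem ⟨v, hv⟩⟩ i)) + toR v₀ = toR v
        rw [h2, toR_sub]
        abel
    rw [AffineMap.image_convexHull, h1, hPdef]
  have hmapinj : ∀ s s' : AffineSubspace ℝ (Fin r → ℝ), s.map χ = s'.map χ → s = s' := by
    intro s s' hs
    ext c
    constructor
    · intro hc
      have h1 : χ c ∈ s.map χ := AffineSubspace.mem_map.mpr ⟨c, hc, rfl⟩
      rw [hs, AffineSubspace.mem_map] at h1
      obtain ⟨c', hc', hcc⟩ := h1
      rw [← hχinj hcc]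
      exact hc'
    · intro hc
      have h1 : χ c ∈ s'.map χ := AffineSubspace.mem_map.mpr ⟨c, hc, rfl⟩
      rw [← hs, AffineSubspace.mem_map] at h1
      obtain ⟨c', hc', hcc⟩ := h1
      rw [← hχinj hcc]
      exact hc'
  have haff : affineSpan ℝ P' = ⊤ := by
    apply hmapinj
    rw [AffineSubspace.map_span, hχP]
    ext x
    rw [AffineSubspace.mem_map]
    constructor
    · intro hx
      have h1 : x - toR v₀ ∈ vectorSpan ℝ P := by
        rw [← direction_affineSpan]
        exact AffineSubspace.vsub_mem_direction hx (subset_affineSpan ℝ _ hv₀P)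
      obtain ⟨y, hy⟩ := hWL _ h1
      refine ⟨y, trivial, ?_⟩
      rw [hχ, hy]
      abel
    · rintro ⟨y, -, rfl⟩
      rw [hχ]
      have h1 : L y ∈ (affineSpan ℝ P).direction := by
        rw [direction_affineSpan]
        exact hLW y
      exact AffineSubspace.vadd_mem_of_mem_direction h1 (subset_affineSpan ℝ _ hv₀P)
  have hinv : TR A' τ' '' P' = P' := by
    apply hχinj.image_injective
    rw [hχP, Set.image_image]
    have h1 : (fun y => χ (TR A' τ' y)) '' P' = F '' (χ '' P') := by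
      rw [Set.image_image]
      exact Set.image_congr fun y _ => (hFχ y).symm
    rw [h1, hχP, hP]
  -- finite order
  have hFiter : ∀ (j : ℕ) (z : Fin n → ℤ), F^[j] (toR z) = toR ((f ^ j) z) := by
    intro j z
    induction j with
    | zero => rfl
    | succ j ih =>
      rw [Function.iterate_succ_apply', ih, hF, realExtL_toR, pow_succ']
      rfl
  have hchiiter : ∀ (j : ℕ) (y : Fin r → ℝ), F^[j] (χ y) = χ ((TR A' τ')^[j] y) := by
    intro j y
    induction j with
    | zero => rfl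
    | succ j ih => rw [Function.iterate_succ_apply', ih, hFχ, Function.iterate_succ_apply']
  have hord : ∀ z : Fin r → ℤ, (TR A' τ')^[m] (castV z) = castV z := by
    intro z
    apply hχinj
    rw [← hchiiter, hχ]
    have h1 : L (castV z) + toR v₀ = toR ((∑ i, z i • Bv i) + v₀) := by
      rw [toR_add, chartL_castV]
    rw [h1, hFiter, hfm]
    rfl
  have hMm : (hatM A' τ') ^ m = 1 := by
    have h1 : ∀ z : Fin r → ℤ, ((hatM A' τ') ^ m).mulVec (homZ z 1) = homZ z 1 := by
      intro z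
      apply castV_injective
      rw [← rM_mulVec, rM_pow, ← hom_castV, hom_TR_iter, hord]
    apply Matrix.mulVec_injective
    funext w
    rw [Matrix.one_mulVec]
    have h2 : w = homZ (fun i => w (Sum.inl i)) 1 + (w (Sum.inr ()) - 1) • homZ 0 1 := by
      funext k
      rcases k with k | k
      · simp
      · simp
    rw [h2, Matrix.mulVec_add, Matrix.mulVec_smul, h1, h1]
  -- the fixed points
  let Q' : Set (Fin r → ℝ) := {y | y ∈ P' ∧ TR A' τ' y = y}
  have hQ' : Q' = {y | y ∈ P' ∧ TR A' τ' y = y} := rfl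
  have hχmem : ∀ y, χ y ∈ fixedPart f P ↔ y ∈ Q' := by
    intro y
    constructor
    · rintro ⟨h1, h2⟩
      rw [← hχP] at h1
      obtain ⟨y', hy', hyy⟩ := h1
      have h3 : y' = y := hχinj hyy
      refine ⟨h3 ▸ hy', hχinj ?_⟩
      rw [← hFχ, ← hFfix]
      exact h2
    · rintro ⟨h1, h2⟩
      refine ⟨hχP ▸ ⟨y, h1, rfl⟩, ?_⟩
      rw [hFfix, hFχ, h2]
  have hχQ : χ '' Q' = fixedPart f P := by
    ext x
    constructor
    · rintro ⟨y, hy, rfl⟩
      exact (hχmem y).mpr hy
    · intro hx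
      have h1 : x ∈ P := hx.1
      rw [← hχP] at h1
      obtain ⟨y, -, rfl⟩ := h1
      exact ⟨y, (hχmem y).mp hx, rfl⟩
  have hconv' : Convex ℝ P' := convex_convexHull ℝ _
  have hinv' : ∀ x ∈ P', TR A' τ' x ∈ P' := by
    intro x hx
    have : TR A' τ' x ∈ TR A' τ' '' P' := ⟨x, hx, rfl⟩
    rwa [hinv] at this
  have hQne : Q'.Nonempty := by
    have h1 : P'.Nonempty := by
      rw [← Set.image_nonempty, hχP]
      exact ⟨_, hv₀P⟩
    obtain ⟨y, hy⟩ := h1
    exact ⟨beta A' τ' m y, beta_mem A' τ' m hm P' hconv' hinv' y hy, beta_fixed A' τ' m hm hMm y⟩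
  have hspan : affineSpan ℝ Q' = fixA A' τ' :=
    affineSpan_fixed A' τ' m hm hMm P' hconv' haff hinv'
  -- the index
  have hind : index (fixedPart f P) = sInf {k : ℕ | 0 < k ∧ ∃ z : Fin r → ℤ,
        (fun i => (z i : ℝ)) ∈ affineSpan ℝ ((k : ℝ) • Q')} := by
    unfold index
    congr 1
    ext k
    have hkey : ∀ x : Fin n → ℝ, x ∈ affineSpan ℝ ((k : ℝ) • fixedPart f P) ↔
        ∃ y ∈ affineSpan ℝ ((k : ℝ) • Q'), L y + (k : ℝ) • toR v₀ = x := by
      let χk : (Fin r → ℝ) →ᵃ[ℝ] (Fin n → ℝ) :=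
        L.toAffineMap + AffineMap.const ℝ (Fin r → ℝ) ((k : ℝ) • toR v₀)
      have hχk : ∀ y, χk y = L y + (k : ℝ) • toR v₀ := by
        intro y
        simp [χk]
      have h1 : (k : ℝ) • fixedPart f P = χk '' ((k : ℝ) • Q') := by
        rw [← hχQ]
        ext x
        constructor
        · rintro ⟨_, ⟨y, hy, rfl⟩, rfl⟩
          refine ⟨(k : ℝ) • y, Set.smul_mem_smul_set hy, ?_⟩
          rw [hχk, map_smul]
          change _ = (k : ℝ) • χ y
          rw [hχ, smul_add]
        · rintro ⟨_, ⟨y, hy, rfl⟩, rfl⟩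
          refine ⟨χ y, ⟨y, hy, rfl⟩, ?_⟩
          change (k : ℝ) • χ y = χk ((k : ℝ) • y)
          rw [hχk, map_smul, hχ, smul_add]
      intro x
      rw [h1, ← AffineSubspace.map_span, AffineSubspace.mem_map]
      simp only [hχk]
    constructor
    · rintro ⟨hk, z, hz⟩
      refine ⟨hk, ?_⟩
      obtain ⟨y, hy, hyz⟩ := (hkey _).mp hz
      have h2 : z - (k : ℤ) • v₀ ∈ parLattice P := by
        rw [mem_parLattice, toR_sub, toR_smul, ← hyz]
        have h3 : L y + (k : ℝ) • toR v₀ - ((k : ℤ) : ℝ) • toR v₀ = L y := by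
          rw [Int.cast_natCast]
          abel
        rw [h3]
        exact hLW y
      refine ⟨fun i => B.repr ⟨_, h2⟩ i, ?_⟩
      have h4 : y = castV (fun i => B.repr ⟨_, h2⟩ i) := by
        apply hLinj
        rw [hrepr, toR_sub, toR_smul, ← hyz, Int.cast_natCast]
        abel
      rw [h4] at hy
      exact hy
    · rintro ⟨hk, z, hz⟩
      refine ⟨hk, (∑ i, z i • Bv i) + (k : ℤ) • v₀, ?_⟩
      rw [hkey]
      refine ⟨castV z, hz, ?_⟩
      rw [chartL_castV, toR_add, toR_smul, Int.cast_natCast]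
  -- the lattice of the fixed part
  have hdir : ∀ y : Fin r → ℝ, y ∈ vectorSpan ℝ Q' ↔ (A'.map (Int.cast : ℤ → ℝ)).mulVec y = y := by
    intro y
    obtain ⟨p, hp⟩ := hQne
    have hpfix : p ∈ fixA A' τ' := (mem_fixA A' τ' p).mpr hp.2
    rw [← direction_affineSpan, hspan, ← AffineSubspace.vadd_mem_iff_mem_direction y hpfix, mem_fixA]
    have h1 : TR A' τ' (y +ᵥ p) = (A'.map (Int.cast : ℤ → ℝ)).mulVec y + p := by
      have h2 : TR A' τ' (y +ᵥ p) = (A'.map (Int.cast : ℤ → ℝ)).mulVec y + TR A' τ' p := by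
        simp only [TR, vadd_eq_add, Matrix.mulVec_add]
        abel
      rw [h2, hp.2]
    rw [h1, vadd_eq_add]
    exact add_left_inj p
  have hvs : vectorSpan ℝ (fixedPart f P) = (vectorSpan ℝ Q').map L := by
    rw [← hχQ, ← AffineMap.map_vectorSpan, hχlin]
  have hlat : ∀ y : Fin r → ℤ, (∑ i, y i • Bv i) ∈ parLattice (fixedPart f P) ↔ y ∈ fixZ A' := by
    intro y
    rw [mem_parLattice, hvs, ← chartL_castV, mem_fixZ]
    constructor
    · rintro ⟨y', hy', hyy⟩
      have h1 : y' = castV y := hLinj hyy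
      rw [SetLike.mem_coe, h1, hdir] at hy'
      apply castV_injective
      rw [← rM_mulVec]
      exact hy'
    · intro h
      refine ⟨castV y, ?_, rfl⟩
      rw [SetLike.mem_coe, hdir]
      have h1 := rM_mulVec A' y
      rw [h] at h1
      exact h1
  have hsub : ∀ z ∈ parLattice (fixedPart f P), z ∈ parLattice P := by
    intro z hz
    rw [mem_parLattice] at hz ⊢
    exact vectorSpan_mono ℝ (fun x hx => hx.1) hz
  let E : fixZ A' →ₗ[ℤ] parLattice (fixedPart f P) :=
    { toFun := fun y => ⟨∑ i, (y : Fin r → ℤ) i • Bv i, (hlat _).mpr y.2⟩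
      map_add' := by
        intro y y'
        apply Subtype.ext
        simp [add_smul, Finset.sum_add_distrib]
      map_smul' := by
        intro c y
        apply Subtype.ext
        simp [Finset.smul_sum, mul_assoc] }
  have hEbij : Function.Bijective E := by
    constructor
    · intro y y' h
      have h1 : (∑ i, (y : Fin r → ℤ) i • Bv i) = ∑ i, (y' : Fin r → ℤ) i • Bv i :=
        congrArg Subtype.val h
      have h2 : (∑ i, ((y : Fin r → ℤ) - (y' : Fin r → ℤ)) i • Bv i) = 0 := by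
        simp only [Pi.sub_apply, sub_smul, Finset.sum_sub_distrib, h1, sub_self]
      exact Subtype.ext (sub_eq_zero.mp (hBinj _ h2))
    · rintro ⟨z, hz⟩
      have h1 : (∑ i, (B.repr ⟨z, hsub z hz⟩ i) • Bv i) = z := by
        rw [← hBsum, B.sum_repr]
      have h2 : (fun i => B.repr ⟨z, hsub z hz⟩ i) ∈ fixZ A' := by
        rw [← hlat]
        rw [h1]
        exact hz
      exact ⟨⟨_, h2⟩, Subtype.ext h1⟩
  let Ee : fixZ A' ≃ₗ[ℤ] parLattice (fixedPart f P) := LinearEquiv.ofBijective E hEbij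
  have hne' : (fixedPart f P).Nonempty := by
    rw [← hχQ]
    exact hQne.image _
  have hcore : ∀ (d : ℕ) (b' : Module.Basis (Fin d) ℤ (fixZ A')), _ := fun d b' =>
    core_vol A' τ' m hm hMm S' P' rfl haff hinv Q' hQ' (index (fixedPart f P)) hind b'
  refine ⟨hne', ?_, hM, ?_⟩
  · exact (hcore _ (Module.finBasis ℤ (fixZ A'))).1
  intro d b x₀ hx₀
  obtain ⟨-, hdim, q, hq1, hq2, hq3⟩ := hcore d (b.map Ee.symm)
  obtain ⟨y₀, hy₀, rfl⟩ : ∃ y₀ ∈ Q', χ y₀ = x₀ := by
    rw [← hχQ] at hx₀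
    exact hx₀
  obtain ⟨N, hN0, hN⟩ := hq3 y₀ hy₀.2
  have hb : ∀ i, toR (b i : Fin n → ℤ) = L (castV ((b.map Ee.symm) i : Fin r → ℤ)) := by
    intro i
    rw [chartL_castV]
    congr 1
    have h1 : Ee ((b.map Ee.symm) i) = b i := by
      rw [Module.Basis.map_apply, LinearEquiv.apply_symm_apply]
    have h2 := congrArg Subtype.val h1
    exact h2.symm
  have hd : dimension (fixedPart f P) = d := by
    rw [dimension, hvs, LinearEquiv.finrank_eq (Submodule.equivMapOfInjective L hLinj _).symm,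
      ← direction_affineSpan, hdim, Fintype.card_fin]
  refine ⟨hd, N, hN0, ?_⟩
  have hset : {c : Fin d → ℝ | χ y₀ + ∑ i, c i • toR (b i : Fin n → ℤ) ∈ fixedPart f P} =
      {c : Fin d → ℝ | y₀ + ∑ i, c i • castV ((b.map Ee.symm) i : Fin r → ℤ) ∈ Q'} := by
    ext c
    have h1 : χ y₀ + ∑ i, c i • toR (b i : Fin n → ℤ) =
        χ (y₀ + ∑ i, c i • castV ((b.map Ee.symm) i : Fin r → ℤ)) := by
      rw [hχ, hχ, map_add, map_sum]
      simp only [map_smul, hb]
      abel
    change χ y₀ + ∑ i, c i • toR (b i : Fin n → ℤ) ∈ fixedPart f P ↔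
      y₀ + ∑ i, c i • castV ((b.map Ee.symm) i : Fin r → ℤ) ∈ Q'
    rw [h1, hχmem]
  have hchar : (f.restrict hM).charpoly = (X - C 1) ^ (Fintype.card (Fin d)) * q := by
    rw [← hq1]
    exact (LinearMap.charpoly_toMatrix (f.restrict hM) B).symm
  rw [phiOne, detPart, relVol, eigenProduct_eq (f.restrict hM) _ q hchar hq2, hset, hd]
  rw [Fintype.card_fin] at hN
  have h3 := congrArg (fun x : ℝ => (x : ℂ)) hN
  simp only [Complex.ofReal_div, Complex.ofReal_mul, Complex.ofReal_natCast,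
    Complex.ofReal_intCast] at h3 ⊢
  exact h3

end Pool.Agent.HG
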